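import Mathlib
import Pool.Agent.H523R2.Cap.Rate

/-!
`D((Z/3)^n) ≥ 2.22086^n` for all large `n`.
-/

namespace Pool.Agent.Results.MP_a8fd3e_co.CapRate

open Pool.Agent.H523R2.Cap

/-- `H` contains no three pairwise distinct elements with sum zero. -/
def Admissible {G : Type*} [AddCommGroup G] (H : Finset G) : Prop :=
  ∀ x ∈ H, ∀ y ∈ H, ∀ z ∈ H, x ≠ y → y ≠ z → x ≠ z → x + y + z ≠ 0

/-- `D(G)`: the largest size of an admissible subset of the finite abelian group `G`. -/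
noncomputable def D (G : Type*) [AddCommGroup G] [Fintype G] : ℕ :=
  sSup {t | ∃ H : Finset G, Admissible H ∧ H.card = t}

theorem result : ∃ n0 : ℕ, ∀ n : ℕ, n0 ≤ n →
    (2.22086 : ℝ) ^ n ≤ (D (Fin n → ZMod 3) : ℝ) := by
  obtain ⟨n0, h⟩ := rate
  refine ⟨n0, fun n hn => ?_⟩
  obtain ⟨A, hA, hA'⟩ := h n hn
  refine hA'.trans ?_
  have hb : BddAbove {t | ∃ H : Finset (Fin n → ZMod 3), Admissible H ∧ H.card = t} := by
    refine ⟨Fintype.card (Fin n → ZMod 3), ?_⟩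
    rintro t ⟨A, _, rfl⟩
    exact Finset.card_le_univ A
  have : A.card ≤ D (Fin n → ZMod 3) := le_csSup hb ⟨A, ?_, rfl⟩
  · exact_mod_cast this
  · intro a ha b hb c hc hab _ _ hs
    exact hab (hA.no_sum ha hb hc hs)

end Pool.Agent.Results.MP_a8fd3e_co.CapRate
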